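import Pool.Agent.H11.AC.Sieve
import Pool.Agent.H11.AC.Pts2

/-!
# Tate's Birch-Swinnerton-Dyer conjecture for 100 per cent of all elliptic curves

All elliptic curves of height `n` over the function field of `Y × 𝔸¹`, for a variety `Y` over a finite field
of odd characteristic the dimension of which is larger than `4 n`.
-/

set_option autoImplicit false

open Polynomial

namespace Pool.Agent.Results.MP_9faec4_nt.DensityOneAllCurves

open Pool.Agent.H11.AC.Stm

section defs

variable {k : Type} [Field k] {A : Type} [CommRing A] [Algebra k A]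

/-- The triples `(a, b, e)` which are settled at none of the closed points of `Y` where `a₀` is not
zero. -/
def exceptions (a₀ : A) (H : Submodule k A) (n : ℕ) : Set (A[X] × A[X] × A[X]) :=
  {D | D ∈ curves H n ∧ ∀ c : MaximalSpectrum A, a₀ ∉ c.asIdeal → ¬ Settled n c D}

/-- For every `N` there is a finite-dimensional space `H₀` of functions on `Y` such that for all
finite-dimensional spaces `H ⊇ H₀` the proportion of the exceptions is at most `1 / N`. -/
def DensityOne (k : Type) [Field k] {A : Type} [CommRing A] [Algebra k A] (a₀ : A) (n : ℕ) : Prop :=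
  ∀ N : ℕ, ∃ H₀ : Submodule k A, Module.Finite k H₀ ∧ ∀ H : Submodule k A, H₀ ≤ H →
    Module.Finite k H → (curves H n).Finite ∧
      N * (exceptions a₀ H n).ncard ≤ (curves H n).ncard

end defs

theorem bernoulli {V N t : ℕ} (ht : N * (V + 1) ≤ t) (hN : 0 < N) :
    N * V ^ t ≤ (V + 1) ^ t := by
  rcases Nat.eq_zero_or_pos V with hV | hV
  · subst hV
    rw [zero_pow (by omega), mul_zero]
    exact Nat.zero_le _
  · have hV' : (0 : ℝ) < V := by exact_mod_cast hV
    have h1 : 1 + (t : ℝ) * (1 / V) ≤ (1 + 1 / V) ^ t :=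
      one_add_mul_le_pow (by
        have : (0 : ℝ) ≤ 1 / V := by positivity
        linarith) t
    have h2 : (N : ℝ) ≤ 1 + (t : ℝ) * (1 / V) := by
      have h3 : (N : ℝ) * V ≤ t := by
        have : N * V ≤ t := le_trans (Nat.mul_le_mul_left _ (Nat.le_succ V)) ht
        exact_mod_cast this
      have h4 : (N : ℝ) ≤ t / V := by
        rw [le_div_iff₀ hV']
        exact h3
      have h5 : (t : ℝ) * (1 / V) = t / V := by ring
      rw [h5]
      linarith
    have h3 : (1 + 1 / (V : ℝ)) = (V + 1) / V := by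
      field_simp
    rw [h3, div_pow] at h1
    have h4 : (N : ℝ) ≤ ((V : ℝ) + 1) ^ t / (V : ℝ) ^ t := h2.trans h1
    rw [le_div_iff₀ (by positivity)] at h4
    exact_mod_cast h4

theorem prod_bound {ι : Type} (T : Finset ι) (q : ι → ℕ) {V : ℕ} (hq : ∀ c ∈ T, q c ≤ V + 1)
    (hq0 : ∀ c ∈ T, 0 < q c) :
    (∏ c ∈ T, (q c - 1)) * (V + 1) ^ T.card ≤ (∏ c ∈ T, q c) * V ^ T.card := by
  rw [← Finset.prod_const, ← Finset.prod_const, ← Finset.prod_mul_distrib,
    ← Finset.prod_mul_distrib]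
  refine Finset.prod_le_prod' fun c hc => ?_
  have h1 := hq c hc
  have h2 := hq0 c hc
  obtain ⟨w, hw⟩ : ∃ w, q c = w + 1 := ⟨q c - 1, by omega⟩
  rw [hw, Nat.add_sub_cancel]
  have h3 : w ≤ V := by omega
  nlinarith

variable {k : Type} [Field k] [Finite k] {A : Type} [CommRing A] [IsDomain A] [Algebra k A]
  [Algebra.FiniteType k A]

/-- **100 per cent of all elliptic curves `y ^ 2 = x ^ 3 + a x ^ 2 + b x + e` over `k(Y)(t)` with `a`, `b`, `e`
in `A[t]` of degree at most `2 n`, `4 n` and `6 n` are settled at a closed point of `Y` outside a given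
closed subset, if the dimension of `Y` is at least `4 n + 1`.** Here `k` is a finite field of odd
characteristic and `Y = Spec A` is a variety over `k`; the dimension is at least `4 n + 1` if and only
if there are `4 n + 1` algebraically independent functions on `Y`. -/
theorem result (h2 : (2 : k) ≠ 0) {n : ℕ} (hn : 0 < n) {x : Fin (4 * n + 1) → A}
    (hx : AlgebraicIndependent k x) {a₀ : A} (ha₀ : a₀ ≠ 0) : DensityOne k a₀ n := by
  classical
  have hA : ¬ Module.Finite k A := by
    intro h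
    have h1 : Transcendental k (x 0) := hx.transcendental 0
    exact h1 (Algebra.IsAlgebraic.isAlgebraic (x 0))
  intro N
  rcases Nat.eq_zero_or_pos N with hN | hN
  · refine ⟨⊥, inferInstance, fun H _ hHf => ?_⟩
    rw [hN, zero_mul]
    exact ⟨Pool.Agent.H11.AC.triples_finite H n, Nat.zero_le _⟩
  obtain ⟨Q, T, hQ, hT, hTc⟩ := Pool.Agent.H11.AC.closed_pts hx ha₀ (12288 * n ^ 2 * N)
    (64 * (4 * n) ^ 2 * (2 * n + 1))
  obtain ⟨H₀, hH₀, hmain⟩ := Pool.Agent.H11.AC.sieve h2 hA hn T (fun c hc => (hT c hc).2.1)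
  refine ⟨H₀, hH₀, fun H hle hHf => ?_⟩
  obtain ⟨hfin, h1⟩ := hmain H hle hHf
  refine ⟨hfin, ?_⟩
  set q : MaximalSpectrum A → ℕ := fun c => 12288 * n ^ 2 * Nat.card (A ⧸ c.asIdeal) ^ (4 * n) with hq
  obtain ⟨V, hV⟩ : ∃ V, 12288 * n ^ 2 * Q ^ (4 * n) = V + 1 := by
    have h3 : 0 < 12288 * n ^ 2 * Q ^ (4 * n) := by positivity
    exact ⟨12288 * n ^ 2 * Q ^ (4 * n) - 1, by omega⟩
  have hq1 : ∀ c ∈ T, q c ≤ V + 1 := by
    intro c hc
    rw [← hV]
    exact Nat.mul_le_mul_left _ (Nat.pow_le_pow_left (hT c hc).2.2 _)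
  have h64 : 0 < 64 * (4 * n) ^ 2 * (2 * n + 1) := by positivity
  have hq0 : ∀ c ∈ T, 0 < q c := by
    intro c hc
    have h3 : 0 < Nat.card (A ⧸ c.asIdeal) := lt_of_lt_of_le h64 (hT c hc).2.1
    positivity
  have h3 := prod_bound T q hq1 hq0
  have h4 : N * V ^ T.card ≤ (V + 1) ^ T.card := by
    refine bernoulli ?_ hN
    rw [← hV]
    refine le_trans (le_of_eq ?_) hTc
    ring
  set X := {D | D ∈ curves H n ∧ ∀ c ∈ T, ¬ Settled n c D}.ncard with hX
  set Cc := (curves H n).ncard with hC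
  set P := ∏ c ∈ T, q c with hP
  set P' := ∏ c ∈ T, (q c - 1) with hP'
  have hXe : (exceptions a₀ H n).ncard ≤ X := by
    refine Set.ncard_le_ncard ?_ (hfin.subset fun D hD => hD.1)
    rintro D ⟨hD, hex⟩
    exact ⟨hD, fun c hc => hex c (hT c hc).1⟩
  refine (Nat.mul_le_mul_left N hXe).trans ?_
  have hPpos : 0 < P * (V + 1) ^ T.card :=
    Nat.mul_pos (Finset.prod_pos hq0) (pow_pos (Nat.succ_pos V) _)
  refine Nat.le_of_mul_le_mul_left ?_ hPpos
  have h5 : P * X ≤ P' * Cc := h1
  calc P * (V + 1) ^ T.card * (N * X) = N * (V + 1) ^ T.card * (P * X) := by ring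
    _ ≤ N * (V + 1) ^ T.card * (P' * Cc) := Nat.mul_le_mul_left _ h5
    _ = N * Cc * (P' * (V + 1) ^ T.card) := by ring
    _ ≤ N * Cc * (P * V ^ T.card) := Nat.mul_le_mul_left _ h3
    _ = P * Cc * (N * V ^ T.card) := by ring
    _ ≤ P * Cc * (V + 1) ^ T.card := Nat.mul_le_mul_left _ h4
    _ = _ := by ring

end Pool.Agent.Results.MP_9faec4_nt.DensityOneAllCurves
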