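import Pool.Agent.H11.TP.Nv
import Pool.Agent.H11.TP.Pairs
import Pool.Agent.H11.L.Pt

/-!
# Tate's Birch-Swinnerton-Dyer conjecture for 100 per cent of the elliptic curves with a rational point
of order two or three

Elliptic curves over the function field of `Y × 𝔸¹`, for a variety `Y` of positive dimension over a finite
field.
-/

set_option autoImplicit false
set_option maxHeartbeats 1000000

open Polynomial

namespace Pool.Agent.Results.MP_9faec4_nt.DensityOneTorsionPoint

/-- The closed points of the affine line over the field `F`: monic irreducible polynomials. -/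
abbrev ClosedPt (F : Type) [Field F] : Type := {P : F[X] // P.Monic ∧ Irreducible P}

/-- The Weierstrass curve `y ^ 2 = x ^ 3 + a x ^ 2 + b x` if `ℓ = 2` and the curve
`y ^ 2 + a x y + b y = x ^ 3` otherwise, for `ℓ = 3`. The point `(0, 0)` has order `ℓ`. -/
def curve (ℓ : ℕ) {R : Type} [CommRing R] (a b : R) : WeierstrassCurve R :=
  if ℓ = 2 then ⟨0, a, 0, b, 0⟩ else ⟨a, 0, b, 0, 0⟩

/-- The polynomial `a ^ ℓ - ℓ ^ ℓ b`. The discriminant of the curve is `16 b ^ 2 (a ^ 2 - 4 b)` for
`ℓ = 2` and `b ^ 3 (a ^ 3 - 27 b)` for `ℓ = 3`. -/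
def codisc (ℓ : ℕ) {R : Type} [CommRing R] (a b : R) : R := a ^ ℓ - (ℓ : R) ^ ℓ * b

/-- The bound for the degree of `a`: it is `2 n` for `ℓ = 2` and `n` for `ℓ = 3`. The bound for the degree
of `b` is `ℓ` times this number. So the curves are those over the projective line the fundamental line
bundle of which is `O(n)`. -/
def wt (ℓ n : ℕ) : ℕ := if ℓ = 2 then 2 * n else n

section generic

variable {F : Type} [Field F]

/-- The number of the affine solutions of the Weierstrass equation. -/
noncomputable def solutions (W : WeierstrassCurve F) : ℕ :=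
  Nat.card {z : F × F // W.toAffine.Equation z.1 z.2}

open Classical in
/-- The Euler polynomial in `T` at a place of degree `d` with the residue field `F` for the reduction `W`:
it is `1 - α T ^ d + #F T ^ (2 d)` for good reduction and `1 - α T ^ d` for bad reduction, with `#F - α` the
number of the affine solutions of the Weierstrass equation. -/
noncomputable def localPoly (W : WeierstrassCurve F) (d : ℕ) : PowerSeries ℤ :=
  1 - PowerSeries.C ((Nat.card F : ℤ) - (solutions W : ℤ)) * PowerSeries.X ^ d +
    if W.Δ = 0 then 0 else PowerSeries.C (Nat.card F : ℤ) * PowerSeries.X ^ (2 * d)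

/-- The Euler factor, the inverse of the Euler polynomial. -/
noncomputable def localFactor (W : WeierstrassCurve F) (d : ℕ) : PowerSeries ℤ :=
  (localPoly W d).invOfUnit 1

end generic

/-- The Euler product: its coefficient of index `n` is that of the product of the factors of degree
at most `n`. -/
noncomputable def eulerProduct {ι : Type} (d : ι → ℕ) (f : ι → PowerSeries ℤ) : PowerSeries ℤ :=
  PowerSeries.mk fun n => PowerSeries.coeff n (∏ᶠ (i : ι) (_ : d i ≤ n), f i)

section defs

variable {k : Type} [Field k]

/-- The residue field of the closed point `P` of the `t`-line. -/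
def Res (P : ClosedPt k) : Type := AdjoinRoot P.1

noncomputable instance resField (P : ClosedPt k) : Field (Res P) :=
  @AdjoinRoot.instField k _ P.1 ⟨P.2.2⟩

/-- The value at `P` of a polynomial in `t`. -/
noncomputable def value (P : ClosedPt k) (g : k[X]) : Res P := AdjoinRoot.mk P.1 g

/-- The `L`-function in the variable `T = q ^ (-s)` of the elliptic curve with the parameters `a`, `b` over
`k(t)`, for `a` of degree at most `wt ℓ n` and `b` of degree at most `ℓ * wt ℓ n`: the product of the
Euler factors at the closed points of the affine line and the one at `t = ∞`, where the reduction is the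
curve the parameters of which are the coefficients of `a` and `b` in the degrees `wt ℓ n` and
`ℓ * wt ℓ n`. -/
noncomputable def Lfun (ℓ n : ℕ) (a b : k[X]) : PowerSeries ℤ :=
  eulerProduct (fun P : ClosedPt k => P.1.natDegree)
    (fun P => localFactor (curve ℓ (value P a) (value P b)) P.1.natDegree) *
  localFactor (curve ℓ (a.coeff (wt ℓ n)) (b.coeff (ℓ * wt ℓ n))) 1

/-- `L(T) = (1 - q T) G(T)` with an integral polynomial `G`: the function vanishes at `s = 1`. -/
def VanishesAtOne (ℓ n : ℕ) (a b : k[X]) : Prop :=
  ∃ G : ℤ[X], Lfun ℓ n a b = (((1 - C (Nat.card k : ℤ) * X) * G : ℤ[X]) : PowerSeries ℤ)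

/-- The polynomials `b` and `a ^ ℓ - ℓ ^ ℓ b` have the maximal degree, so that the reduction at `t = ∞` is
good, their product is squarefree, so that the Weierstrass equation is minimal and the reduction is
semistable, and the `L`-function does not vanish at `s = 1`. -/
structure Settled (ℓ n : ℕ) (a b : k[X]) : Prop where
  degree : a.natDegree ≤ wt ℓ n
  degree_fst : b.natDegree = ℓ * wt ℓ n
  degree_snd : (codisc ℓ a b).natDegree = ℓ * wt ℓ n
  squarefree : Squarefree (b * codisc ℓ a b)
  nonvanishing : ¬ VanishesAtOne ℓ n a b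

end defs

section base

variable {k : Type} [Field k] {A : Type} [CommRing A] [Algebra k A]

/-- The residue field of a closed point of `Y = Spec A`. -/
def FieldAt (c : MaximalSpectrum A) : Type := A ⧸ c.asIdeal

attribute [local instance] MaximalSpectrum.isMaximal in
noncomputable instance fieldAtField (c : MaximalSpectrum A) : Field (FieldAt c) :=
  Ideal.Quotient.field c.asIdeal

instance fieldAtAlgebra (c : MaximalSpectrum A) : Algebra k (FieldAt c) :=
  inferInstanceAs (Algebra k (A ⧸ c.asIdeal))

/-- The value of a function on `Y` at the closed point `c`. -/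
def evalAt (c : MaximalSpectrum A) : A →+* FieldAt c := Ideal.Quotient.mk c.asIdeal

/-- The specialisation at `c` of a polynomial with coefficients in `A`. -/
noncomputable def spec (c : MaximalSpectrum A) (g : A[X]) : (FieldAt c)[X] := g.map (evalAt c)

/-- The closed points of `Y` where `a` is not zero and at which the polynomial `g` over `A` has a root in
the residue field. -/
def rootPoints (a : A) (g : A[X]) : Set (MaximalSpectrum A) :=
  {c | evalAt c a ≠ 0 ∧ ∃ x : A, evalAt c (g.eval x) = 0}

/-- The pairs `(a, b)` of polynomials in `t` over `A` of degree at most `wt ℓ n` and `ℓ * wt ℓ n` with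
coefficients in `H`. -/
def pairs (H : Submodule k A) (ℓ n : ℕ) : Set (A[X] × A[X]) :=
  {D | (D.1.natDegree ≤ wt ℓ n ∧ ∀ j, D.1.coeff j ∈ H) ∧
    (D.2.natDegree ≤ ℓ * wt ℓ n ∧ ∀ j, D.2.coeff j ∈ H)}

/-- The pairs the specialisations of which are settled at none of the points in `Z`. -/
def exceptions (Z : Set (MaximalSpectrum A)) (H : Submodule k A) (ℓ n : ℕ) : Set (A[X] × A[X]) :=
  {D | D ∈ pairs H ℓ n ∧ ∀ c ∈ Z, ¬ Settled ℓ n (spec c D.1) (spec c D.2)}

/-- For every `N` there is a finite-dimensional space `H₀` of functions on `Y` such that for all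
finite-dimensional spaces `H ⊇ H₀` the proportion of the exceptions is at most `1 / N`. -/
def DensityOne (k : Type) [Field k] {A : Type} [CommRing A] [Algebra k A]
    (Z : Set (MaximalSpectrum A)) (ℓ n : ℕ) : Prop :=
  ∀ N : ℕ, ∃ H₀ : Submodule k A, Module.Finite k H₀ ∧ ∀ H : Submodule k A, H₀ ≤ H →
    Module.Finite k H → (pairs H ℓ n).Finite ∧
      N * (exceptions Z H ℓ n).ncard ≤ (pairs H ℓ n).ncard

/-- The set `Z` contains closed points of arbitrarily large degree with `ℓ`-th roots of unity in the
residue field. -/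
def HasPoints (k : Type) [Field k] {A : Type} [CommRing A] [Algebra k A] (ℓ : ℕ)
    (Z : Set (MaximalSpectrum A)) : Prop :=
  ∀ m : ℕ, ∃ c ∈ Z, Nat.card (FieldAt c) ≡ 1 [MOD ℓ] ∧ m ≤ Module.finrank k (FieldAt c)

end base

section proof

open Pool.Agent.H11.TP

theorem settled_of {κ : Type} [Field κ] [Finite κ] {ℓ n : ℕ} (hℓ : ℓ = 2 ∨ ℓ = 3)
    (hk : (ℓ : κ) ≠ 0) (hn : 0 < n) (hq : Nat.card κ ≡ 1 [MOD ℓ]) {D : κ[X] × κ[X]}
    (hD : D.1.natDegree ≤ wt ℓ n) (h : Nice ℓ (ℓ * wt ℓ n) ((ℓ : κ) ^ ℓ) D) :
    Settled ℓ n D.1 D.2 := by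
  have hr : 0 < wt ℓ n := by
    unfold wt
    split_ifs <;> omega
  have hlr : 3 ≤ ℓ * wt ℓ n := by
    rcases hℓ with rfl | rfl
    · rw [wt, if_pos rfl]
      omega
    · omega
  have hc : codisc ℓ D.1 D.2 = D.1 ^ ℓ - C ((ℓ : κ) ^ ℓ) * D.2 := by
    rw [codisc, C_pow, ← C_eq_natCast]
  have hq' : ((Nat.card κ : ℕ) : ZMod ℓ) = 1 := by
    have := (ZMod.natCast_eq_natCast_iff _ _ _).2 hq
    rwa [Nat.cast_one] at this
  refine ⟨hD, Two_deg (by omega) h.snd, ?_, ?_, ?_⟩
  · rw [hc]
    exact Two_deg (by omega) h.cmp
  · rw [hc]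
    exact nice_sqf hlr h
  · exact nice_nonvan hℓ hr hlr hk hq' hD h

/-- enough points -/
theorem exists_num (V n : ℕ) : ∃ t : ℕ, n * V ^ t ≤ (V + 1) ^ t := by
  have h0 : (0 : ℝ) < (V : ℝ) + 1 := by positivity
  have h1 : (V : ℝ) / ((V : ℝ) + 1) < 1 := by
    rw [div_lt_one h0]
    linarith
  obtain ⟨t, ht⟩ := exists_pow_lt_of_lt_one (show (0 : ℝ) < 1 / ((n : ℝ) + 1) by positivity) h1
  refine ⟨t, ?_⟩
  rw [div_pow, div_lt_div_iff₀ (by positivity) (by positivity), one_mul] at ht
  have h2 : (n : ℝ) * (V : ℝ) ^ t ≤ ((V : ℝ) + 1) ^ t := by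
    have h3 : (0 : ℝ) ≤ (V : ℝ) ^ t := by positivity
    nlinarith
  exact_mod_cast h2

variable {k : Type} [Field k] [Finite k] {A : Type} [CommRing A] [IsDomain A] [Algebra k A]
  [Algebra.FiniteType k A]

theorem density {ℓ : ℕ} (hℓ : ℓ = 2 ∨ ℓ = 3) (hk : (ℓ : k) ≠ 0) {n : ℕ} (hn : 0 < n)
    (Z : Set (MaximalSpectrum A)) (hZ : HasPoints k ℓ Z) : DensityOne k Z ℓ n := by
  classical
  intro N
  have hmf : ∀ c : MaximalSpectrum A, Module.Finite k (A ⧸ c.asIdeal) := fun c =>
    Pool.Agent.Y141.Lay.fin_quot k A c.asIdeal c.isMaximal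
  set r := wt ℓ n with hr
  set m := ℓ * r with hm
  have hrn : 0 < r := by
    rw [hr]
    unfold wt
    split_ifs <;> omega
  have hrm : r + 1 < m := by
    rcases hℓ with rfl | rfl
    · rw [wt, if_pos rfl] at hr
      omega
    · omega
  have hm3 : 3 ≤ m := by omega
  set B := 64 * m ^ 2 * (r + 1) with hB
  let Z' : Set (MaximalSpectrum A) :=
    {c | c ∈ Z ∧ Nat.card (FieldAt c) ≡ 1 [MOD ℓ] ∧ B ≤ Module.finrank k (FieldAt c)}
  have hZ' : Z'.Infinite := by
    intro hfin
    obtain ⟨b, hb⟩ := (hfin.image fun c : MaximalSpectrum A =>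
      Module.finrank k (FieldAt c)).bddAbove
    obtain ⟨c, h1, h2, h3⟩ := hZ (max (b + 1) B)
    have h5 := hb ⟨c, ⟨h1, h2, (le_max_right _ _).trans h3⟩, rfl⟩
    have h6 := (le_max_left _ _).trans h3
    dsimp only at h5
    omega
  obtain ⟨V, hV⟩ : ∃ V, 128 * m ^ 2 = V + 1 :=
    ⟨128 * m ^ 2 - 1, by have : 1 ≤ m ^ 2 := Nat.one_le_pow _ _ (by omega); omega⟩
  have hV0 : 0 < V := by
    have : 1 ≤ m ^ 2 := Nat.one_le_pow _ _ (by omega)
    omega
  obtain ⟨t, ht⟩ := exists_num V N
  obtain ⟨T, hTZ, hTn⟩ := hZ'.exists_subset_card_eq t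
  have hTf : ∀ c ∈ T, Finite (A ⧸ c.asIdeal) := fun c _ => by
    have := hmf c
    exact Module.finite_of_finite k
  obtain ⟨H₀, hH₀, hH₀'⟩ := Pool.Agent.Y709.Lay.exists_sub (k := k) T hTf
  refine ⟨H₀, hH₀, fun H hle hHf => ?_⟩
  have htw : (pairs H ℓ n).Finite := finite_pairs H r m
  refine ⟨htw, ?_⟩
  have hmain := count_pairs H r m T hTf (hH₀' H hle)
    (fun c => {D | ¬ Settled (k := FieldAt c) ℓ n D.1 D.2}) (128 * m ^ 2) (128 * m ^ 2 - 1)
    (fun c hc => ?_)
  · have hsub : (exceptions Z H ℓ n).ncard ≤
        {D : A[X] × A[X] | ((D.1.natDegree ≤ r ∧ ∀ j, D.1.coeff j ∈ H) ∧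
        (D.2.natDegree ≤ m ∧ ∀ j, D.2.coeff j ∈ H)) ∧
        ∀ c ∈ T, (D.1.map (Ideal.Quotient.mk c.asIdeal),
          D.2.map (Ideal.Quotient.mk c.asIdeal)) ∈
            {D : (FieldAt c)[X] × (FieldAt c)[X] |
              ¬ Settled (k := FieldAt c) ℓ n D.1 D.2}}.ncard := by
      refine Set.ncard_le_ncard ?_ (htw.subset fun D hD => hD.1)
      rintro D ⟨hD, hex⟩
      exact ⟨hD, fun c hc => hex c (hTZ hc).1⟩
    rw [hTn, hV, Nat.add_sub_cancel] at hmain
    have h3 : 0 < V ^ t := pow_pos hV0 t
    refine Nat.le_of_mul_le_mul_left ?_ h3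
    calc V ^ t * (N * (exceptions Z H ℓ n).ncard) =
          (N * V ^ t) * (exceptions Z H ℓ n).ncard := by ring
      _ ≤ (V + 1) ^ t * (exceptions Z H ℓ n).ncard := Nat.mul_le_mul_right _ ht
      _ ≤ (V + 1) ^ t * _ := Nat.mul_le_mul_left _ hsub
      _ ≤ _ := hmain
  · obtain ⟨hc1, hcq, hc3⟩ := hTZ hc
    have hfc : Finite (FieldAt c) := hTf c hc
    have hmf' : Module.Finite k (FieldAt c) := hmf c
    have hcard : Nat.card (FieldAt c) = Nat.card k ^ Module.finrank k (FieldAt c) :=
      Module.natCard_eq_pow_finrank (K := k) (V := A ⧸ c.asIdeal)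
    have hkc : (ℓ : FieldAt c) ≠ 0 := by
      have h4 : algebraMap k (FieldAt c) (ℓ : k) = (ℓ : FieldAt c) := map_natCast _ ℓ
      rw [← h4]
      exact (_root_.map_ne_zero _).2 hk
    have hbig : 64 * m ^ 2 * (r + 1) ≤ Nat.card (FieldAt c) := by
      rw [hcard]
      exact hc3.trans (Nat.lt_pow_self Finite.one_lt_card).le
    exact few (κ := FieldAt c) (s := ℓ) hm3 hrm (by rw [mul_comm]) hbig (pow_ne_zero ℓ hkc) _
      (fun D h1 _ h2 => not_not.2 (settled_of hℓ hkc hn hcq h1 h2))

theorem card_two {κ : Type} [Field κ] [Finite κ] (h2 : (2 : κ) ≠ 0) : Nat.card κ ≡ 1 [MOD 2] := by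
  have := Fintype.ofFinite κ
  have h1 : ringChar κ ≠ 2 := by
    intro h
    apply h2
    have := ringChar.Nat.cast_ringChar (R := κ)
    rw [h] at this
    exact_mod_cast this
  have h3 := FiniteField.odd_card_of_char_ne_two h1
  rw [Fintype.card_eq_nat_card] at h3
  exact h3

theorem card_three {κ : Type} [Field κ] [Finite κ] (h3 : (3 : κ) ≠ 0) {x : κ}
    (hx : x ^ 2 + x + 1 = 0) : Nat.card κ ≡ 1 [MOD 3] := by
  classical
  have := Fintype.ofFinite κ
  have hx0 : x ≠ 0 := by
    rintro rfl
    simp at hx
  have hx1 : x ≠ 1 := by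
    rintro rfl
    apply h3
    linear_combination hx
  have hx3 : (Units.mk0 x hx0) ^ 3 = 1 := by
    apply Units.ext
    simp only [Units.val_pow_eq_pow_val, Units.val_mk0, Units.val_one]
    linear_combination (x - 1) * hx
  have hx1' : Units.mk0 x hx0 ≠ 1 := by
    intro h
    exact hx1 (congrArg Units.val h)
  have h4 : orderOf (Units.mk0 x hx0) = 3 := orderOf_eq_prime hx3 hx1'
  have h5 : 3 ∣ Fintype.card κˣ := by
    rw [← h4]
    exact orderOf_dvd_card
  rw [Fintype.card_units, Fintype.card_eq_nat_card] at h5
  have h6 : 1 ≤ Nat.card κ := Nat.card_pos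
  exact ((Nat.modEq_iff_dvd' h6).2 h5).symm

theorem enough {ℓ : ℕ} (hℓ : ℓ = 2 ∨ ℓ = 3) (hk : (ℓ : k) ≠ 0) (hA : ¬ Module.Finite k A)
    {a : A} {g : A[X]} (ha : a ≠ 0) (hg : 0 < g.natDegree) : HasPoints k ℓ (rootPoints a g) := by
  intro m
  have hinj : Function.Injective (algebraMap k (FractionRing A)) := (algebraMap k _).injective
  rcases hℓ with rfl | rfl
  · obtain ⟨c, h1, ⟨x, hx⟩, h3, h4, -, -⟩ :=
      Pool.Agent.W5h21.DQ.exists_pt hA (f := (X : A[X])) monic_X
        (by rw [Polynomial.map_X]; exact separable_X) ha hg m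
    have h4' : Module.Finite k (FieldAt c) := h4
    have hfc : Finite (FieldAt c) := Module.finite_of_finite k
    refine ⟨c, ⟨fun h => h1 (Ideal.Quotient.eq_zero_iff_mem.1 h), x,
      Ideal.Quotient.eq_zero_iff_mem.2 hx⟩, card_two ?_, h3⟩
    have h5 : algebraMap k (FieldAt c) ((2 : ℕ) : k) = ((2 : ℕ) : FieldAt c) := map_natCast _ 2
    have h6 : ((2 : ℕ) : FieldAt c) ≠ 0 := by
      rw [← h5]
      exact (_root_.map_ne_zero _).2 hk
    exact_mod_cast h6
  · have hmon : (X ^ 2 + X + 1 : A[X]).Monic := by
      monicity!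
    have hdeg : (X ^ 2 + X + 1 : A[X]).natDegree = 2 := by
      compute_degree!
    have h30 : (3 : FractionRing A) ≠ 0 := by
      have h5 : algebraMap k (FractionRing A) ((3 : ℕ) : k) = ((3 : ℕ) : FractionRing A) :=
        map_natCast _ 3
      have h6 : ((3 : ℕ) : FractionRing A) ≠ 0 := by
        rw [← h5]
        exact (_root_.map_ne_zero _).2 hk
      exact_mod_cast h6
    have hsep : ((X ^ 2 + X + 1 : A[X]).map (algebraMap A (FractionRing A))).Separable := by
      rw [Polynomial.map_add, Polynomial.map_add, Polynomial.map_pow, Polynomial.map_X,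
        Polynomial.map_one]
      rw [separable_def]
      refine ⟨C (4 / 3), C (-(1 / 3)) * (2 * X + 1), ?_⟩
      have h7 : derivative (X ^ 2 + X + 1 : (FractionRing A)[X]) = 2 * X + 1 := by
        simp only [derivative_add, derivative_X_pow, derivative_X, derivative_one]
        simp
        rfl
      rw [h7]
      have h8 : (C (4 / 3) : (FractionRing A)[X]) = 4 * C (1 / 3) := by
        rw [show (4 : (FractionRing A)[X]) = C 4 from rfl, ← C_mul]
        congr 1
        ring
      have h9 : (3 : (FractionRing A)[X]) * C (1 / 3) = 1 := by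
        rw [show (3 : (FractionRing A)[X]) = C 3 from rfl, ← C_mul, ← C_1]
        congr 1
        field_simp
      rw [h8, C_neg]
      linear_combination h9
    obtain ⟨c, h1, ⟨x, hx⟩, h3, h4, h5, -⟩ :=
      Pool.Agent.W5h21.DQ.exists_pt hA hmon hsep ha hg m
    have h4' : Module.Finite k (FieldAt c) := h4
    have hfc : Finite (FieldAt c) := Module.finite_of_finite k
    have h3c : (3 : FieldAt c) ≠ 0 := by
      have h5 : algebraMap k (FieldAt c) ((3 : ℕ) : k) = ((3 : ℕ) : FieldAt c) := map_natCast _ 3
      have h6 : ((3 : ℕ) : FieldAt c) ≠ 0 := by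
        rw [← h5]
        exact (_root_.map_ne_zero _).2 hk
      exact_mod_cast h6
    have hspl : (spec c (X ^ 2 + X + 1)).Splits := h5
    have hd2 : (spec c (X ^ 2 + X + 1)).degree ≠ 0 := by
      have h6 : (spec c (X ^ 2 + X + 1)).natDegree = 2 := by
        unfold spec
        rw [hmon.natDegree_map, hdeg]
      intro h7
      have h8 := natDegree_eq_zero_iff_degree_le_zero.2 h7.le
      omega
    obtain ⟨y, hy⟩ := hspl.exists_eval_eq_zero hd2
    refine ⟨c, ⟨fun h => h1 (Ideal.Quotient.eq_zero_iff_mem.1 h), x,
      Ideal.Quotient.eq_zero_iff_mem.2 hx⟩, card_three h3c (x := y) ?_, h3⟩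
    unfold spec at hy
    rw [Polynomial.map_add, Polynomial.map_add, Polynomial.map_pow, Polynomial.map_X,
      Polynomial.map_one] at hy
    simpa using hy

end proof

/-- **Tate's Birch-Swinnerton-Dyer conjecture for 100 per cent of the elliptic curves with a rational point
of order two or three over the function field of `Y × 𝔸¹`, for every variety `Y` of positive dimension over a
finite field.**

Let `Y` be an affine variety of positive dimension over the finite field `k`, `A` its coordinate ring, `ℓ` one
of the primes `2` and `3`, invertible in `k`, and `K = k(Y)(t)`; so every function field `k(Y)` over `k` is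
allowed, and `N = dim Y + 1 ≥ 2` is the transcendence degree of `K` and the dimension of a model. The elliptic
curves over `K` with a rational point of order `ℓ` are the curves `y ^ 2 = x ^ 3 + a x ^ 2 + b x` for
`ℓ = 2` and `y ^ 2 + a x y + b y = x ^ 3` for `ℓ = 3`, with `a`, `b` in `A[t]`, of degrees at most `2 n`
and `4 n` for `ℓ = 2` and at most `n` and `3 n` for `ℓ = 3`, for some `n`.

The theorem: let `n ≥ 1`, let `a₀ ≠ 0` be in `A` and `g` a polynomial over `A` of positive degree. Then the
density of the curves `E` the specialisations `E_c` of which are settled at none of the closed points `c`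
of `Y` with `a₀(c) ≠ 0` and with a root of `g` in `k(c)` is zero: for every `m` there is a
finite-dimensional space `H₀` of functions on `Y` such that for every finite-dimensional space `H ⊇ H₀`
the curves as above with coefficients of `a` and `b` in `H` are settled at such a point, with the exception
of a proportion of at most `1 / m`. Here settled at `c` means that `E_c` over `k(c)(t)` is semistable with
good reduction at `t = ∞` and with squarefree `b (a ^ ℓ - ℓ ^ ℓ b)` of maximal degree, and that its
L-function does not vanish at `s = 1`. Nothing is assumed about the curves, the family is the whole family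
of the given degree. These curves are not isotrivial, and for `n ≥ 3` the elliptic surfaces are neither
rational nor K3 surfaces.

This implies the conjecture (Q1) for `E` over `K' = k(Y')(t)` for every variety `Y'` that is generically
finite over `Y`, with the order and the rank both zero. We may assume that the function field of `Y'` is
separable over the one of `Y`, and take for `g` the minimal polynomial of a generator (times a
denominator), and choose `a₀` such that `Y` is smooth and the discriminant and the leading coefficient of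
`g` are invertible where `a₀ ≠ 0`. Let `E` be settled at `c`. Then in a neighbourhood `U` of `c` the zeros
of `b (a ^ ℓ - ℓ ^ ℓ b)` form a finite étale covering of `U`; let `V` be its complement in `U × ℙ¹`,
`π : V → U`, and `R` the sheaf of the first cohomology of the fibres of `E` over `V`. It is lisse, and the
local monodromy at the boundary is unipotent and not trivial, so `R` is tame, `R¹π_! R` is lisse and the
other `Rⁱπ_! R` are zero. The stalk of `R¹π_! R` at `c` is the extension of the cohomology of `j_* R_c`
on the projective line, on which the characteristic polynomial of Frobenius is the L-function of `E_c`,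
by a space of weight zero. So `#k(c)` is not an eigenvalue of the Frobenius at `c` on this stalk. A root of
`g` in `k(c)` gives a closed point of `Y'` above `c` with the same residue field. By Deligne the order of
`Φ₁` over `K'` at `s = N` is the multiplicity of the eigenvalue `(#k') ^ N`, `k'` the field of constants of
`Y'`, of Frobenius on the cohomology with compact support in degree `2 (N - 1)` of the inverse image of `U`
in `Y'` with coefficients in `R¹π_! R`, a twisted group of coinvariants and so a quotient of the stalk;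
hence it is zero. By Tate's inequality the rank is zero as well.

Proof: modulo `ℓ` the number of the points of the reductions is known, since the translation by the point
of order `ℓ` acts on them with few fixed points. It follows that
`L(T) (1 - T) ^ 4 = ∏ (1 - T ^ deg v) mod ℓ` over the places `v` of bad reduction, if
`#k(c) = 1 mod ℓ`. If `b` and `a ^ ℓ - ℓ ^ ℓ b` are both products of a linear and an irreducible
polynomial then there are four such places, of degrees prime to `ℓ`, and so the L-function does not
vanish modulo `ℓ` at `T = 1`. For each `a ≠ 0` the `b` with this property are a positive proportion, which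
depends on `n` only: this follows from a second moment for the lines through zero. The conditions at
different points `c` are independent. The points are found with a primitive element of the field generated
by the separable part of a root of `g` and the `ℓ`-th roots of unity. -/
theorem result (ℓ : ℕ) (hℓ : ℓ = 2 ∨ ℓ = 3) (k : Type) [Field k] [Finite k] (hk : (ℓ : k) ≠ 0)
    (A : Type) [CommRing A] [IsDomain A] [Algebra k A] [Algebra.FiniteType k A]
    (hA : ¬ Module.Finite k A) (n : ℕ) (hn : 0 < n) (a₀ : A) (ha₀ : a₀ ≠ 0) (g : A[X])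
    (hg : 0 < g.natDegree) : DensityOne k (rootPoints a₀ g) ℓ n :=
  density hℓ hk hn _ (enough hℓ hk hA ha₀ hg)

end Pool.Agent.Results.MP_9faec4_nt.DensityOneTorsionPoint
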