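import Pool.Agent.H11.CB.Main

/-!
# Tate's Birch-Swinnerton-Dyer conjecture for a positive proportion of all curves `y ^ a = x ^ b + …`

All Weierstrass equations, all hyperelliptic curves with a rational Weierstrass point, and more generally
all the curves `y ^ a = x ^ b + ∑ c_(i,j) x ^ i y ^ j` of bounded height over the function field of
`Y × 𝔸¹`, for a variety `Y` of positive dimension over a finite field of any characteristic.
-/

set_option autoImplicit false

open Polynomial

namespace Pool.Agent.Results.MP_9faec4_nt.PositiveProportionAllGenera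

open Pool.Agent.H11.CB.Stm

/-- **A positive proportion of all the curves `y ^ a = x ^ b + ∑ c_(i,j) x ^ i y ^ j` over `k(Y)(t)` with
`c_(i,j)` in `A[t]` of degree at most `n (a b - a i - b j)` are settled at a closed point of `Y` outside a
given closed subset.** Here `k` is a finite field and `Y = Spec A` is a variety of positive dimension
over `k`, the numbers `a` and `b` are coprime, and the pair `(i, j)` runs through a set `S` of pairs with
`a i + b j < a b`, which contains `(0, 0)`, and `(1, 0)` if the characteristic divides `b`, and `(0, 1)`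
if it divides `a`. -/
theorem result {k : Type} [Field k] [Finite k] {A : Type} [CommRing A] [IsDomain A] [Algebra k A]
    [Algebra.FiniteType k A] (hA : ¬ Module.Finite k A) {a b n : ℕ} (ha : 1 < a) (hb : 1 < b)
    (hab : Nat.Coprime a b) (hn : 0 < n) {S : Finset (ℕ × ℕ)} (hS : ∀ z ∈ S, a * z.1 + b * z.2 < a * b)
    (h0 : (0, 0) ∈ S) (h1 : (b : k) = 0 → (1, 0) ∈ S) (h2 : (a : k) = 0 → (0, 1) ∈ S) {a₀ : A}
    (ha₀ : a₀ ≠ 0) :
    ∃ M : ℕ, ∃ H₀ : Submodule k A, Module.Finite k H₀ ∧ ∀ H : Submodule k A, H₀ ≤ H →
      Module.Finite k H → (curves a b S H n).Finite ∧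
        (curves a b S H n).ncard ≤ M * {D | D ∈ curves a b S H n ∧
          ∃ c : MaximalSpectrum A, a₀ ∉ c.asIdeal ∧ Settled a b S n c D}.ncard :=
  Pool.Agent.H11.CB.main hA ha hb hab hn hS h0 h1 h2 ha₀

end Pool.Agent.Results.MP_9faec4_nt.PositiveProportionAllGenera
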