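import Pool.Agent.H11.RK.Main

/-!
# Tate's Birch-Swinnerton-Dyer conjecture in any rank for a positive proportion of curves

The curves with a given leading form: the plane curves of degree `e` which meet the line at infinity in
`e` given points, the hyperelliptic curves with two given points at infinity, and in general the curves
`g (x ^ b, y ^ a) + ∑ c_(i,j) x ^ i y ^ j = 0`, over the function field of `Y × 𝔸¹`, for a variety `Y` of
positive dimension over a finite field of any characteristic.
-/

set_option autoImplicit false

open Polynomial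

namespace Pool.Agent.Results.MP_9faec4_nt.PositiveProportionAnyRank

open Pool.Agent.H11.RK.Stm

/-- **A positive proportion of all the curves `g (x ^ b, y ^ a) + ∑ c_(i,j) x ^ i y ^ j = 0` over `k(Y)(t)`
with `c_(i,j)` in `A[t]` of degree at most `n (a b e - a i - b j)`, the sum over all the pairs with
`a i + b j < a b e`, are settled at closed points of `Y` outside a given closed subset.** Here `k` is a
finite field, `Y = Spec A` is a variety of positive dimension over `k`, the numbers `a ≤ b` are coprime,
and the binary form `g (X, Y) = ∑ g_i X ^ i Y ^ (e - i)` of degree `e ≥ 2` is given by a polynomial of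
degree `e` over `A` without multiple roots, with `g_0 ≠ 0` if `b > 1`. -/
theorem result {k : Type} [Field k] [Finite k] {A : Type} [CommRing A] [IsDomain A] [Algebra k A]
    [Algebra.FiniteType k A] (hA : ¬ Module.Finite k A) {a b e n : ℕ} (ha : 0 < a) (hle : a ≤ b)
    (hab : Nat.Coprime a b) (he : 1 < e) (hgen : 1 < b ∨ 2 < e) (hn : 0 < n) (hnb : 1 < n ∨ 2 < b)
    {g : A[X]} (hg : g.natDegree = e) (hsep : (g.map (algebraMap A (FractionRing A))).Separable)
    (hg0 : 1 < b → g.coeff 0 ≠ 0) {a₀ : A} (ha₀ : a₀ ≠ 0) :
    ∃ M : ℕ, ∃ H₀ : Submodule k A, Module.Finite k H₀ ∧ ∀ H : Submodule k A, H₀ ≤ H →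
      Module.Finite k H → (curves a b e H n).Finite ∧
        (curves a b e H n).ncard ≤ M * {D | D ∈ curves a b e H n ∧
          ∃ c c' : MaximalSpectrum A, a₀ ∉ c.asIdeal ∧ a₀ ∉ c'.asIdeal ∧
            Settled a b e n g.coeff c c' D}.ncard :=
  Pool.Agent.H11.RK.main hA ha hle hab he hgen hn hnb hg hsep hg0 ha₀

end Pool.Agent.Results.MP_9faec4_nt.PositiveProportionAnyRank
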